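import Mathlib

/-!
# Product weights on `E → Bool` and cylinder events
-/

namespace ProfArtin.RG

open Finset

variable {E : Type*} [Fintype E] [DecidableEq E]

/-- weight of one coordinate -/
noncomputable def w1 (p : ℝ) (b : Bool) : ℝ := if b then p else 1 - p

/-- product weight -/
noncomputable def wt (p : ℝ) (ω : E → Bool) : ℝ := ∏ e, w1 p (ω e)

theorem w1_nonneg {p : ℝ} (h0 : 0 ≤ p) (h1 : p ≤ 1) (b : Bool) : 0 ≤ w1 p b := by
  unfold w1
  split_ifs
  · exact h0
  · linarith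

omit [DecidableEq E] in
theorem wt_nonneg {p : ℝ} (h0 : 0 ≤ p) (h1 : p ≤ 1) (ω : E → Bool) : 0 ≤ wt p ω :=
  prod_nonneg fun _ _ => w1_nonneg h0 h1 _

open Classical in
/-- probability of an event -/
noncomputable def Pr (p : ℝ) (A : (E → Bool) → Prop) : ℝ := ∑ ω, if A ω then wt p ω else 0

open Classical in
theorem Pr_filter (p : ℝ) (A : (E → Bool) → Prop) :
    Pr p A = ∑ ω ∈ univ.filter A, wt p ω := by
  unfold Pr
  exact (Finset.sum_filter A (wt p)).symm

open Classical in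
theorem Pr_cyl (p : ℝ) (D : Finset E) (v : E → Bool) :
    Pr p (fun ω : E → Bool => ∀ e ∈ D, ω e = v e) = ∏ e ∈ D, w1 p (v e) := by
  have h1 : Pr p (fun ω : E → Bool => ∀ e ∈ D, ω e = v e) =
      ∑ ω ∈ Fintype.piFinset (fun e => if e ∈ D then ({v e} : Finset Bool) else univ), wt p ω := by
    rw [Pr_filter]
    refine sum_congr ?_ fun _ _ => rfl
    ext ω
    simp only [mem_filter, mem_univ, true_and, Fintype.mem_piFinset]
    constructor
    · intro h e
      by_cases he : e ∈ D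
      · rw [if_pos he, mem_singleton]
        exact h e he
      · rw [if_neg he]
        exact mem_univ _
    · intro h e he
      have := h e
      rwa [if_pos he, mem_singleton] at this
  rw [h1]
  unfold wt
  rw [← Finset.prod_univ_sum (t := fun e => if e ∈ D then ({v e} : Finset Bool) else univ)
    (f := fun _ b => w1 p b)]
  rw [← Finset.prod_subset (Finset.subset_univ D)]
  · refine prod_congr rfl fun e he => ?_
    rw [if_pos he, sum_singleton]
  · intro e _ he
    rw [if_neg he]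
    simp [w1]

theorem Pr_true (p : ℝ) : Pr p (fun _ : E → Bool => True) = 1 := by
  have h := Pr_cyl (E := E) p ∅ (fun _ => true)
  simpa using h

theorem Pr_mono {p : ℝ} (h0 : 0 ≤ p) (h1 : p ≤ 1) {A B : (E → Bool) → Prop}
    (h : ∀ ω, A ω → B ω) : Pr p A ≤ Pr p B := by
  unfold Pr
  refine sum_le_sum fun ω _ => ?_
  by_cases hA : A ω
  · rw [if_pos hA, if_pos (h ω hA)]
  · rw [if_neg hA]
    split_ifs
    · exact wt_nonneg h0 h1 ω
    · exact le_rfl

theorem Pr_or_le {p : ℝ} (h0 : 0 ≤ p) (h1 : p ≤ 1) (A B : (E → Bool) → Prop) :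
    Pr p (fun ω => A ω ∨ B ω) ≤ Pr p A + Pr p B := by
  unfold Pr
  rw [← sum_add_distrib]
  refine sum_le_sum fun ω _ => ?_
  have := wt_nonneg h0 h1 ω
  by_cases hA : A ω <;> by_cases hB : B ω <;> simp [hA, hB, this]

theorem Pr_exists_le {p : ℝ} (h0 : 0 ≤ p) (h1 : p ≤ 1) {ι : Type*} (s : Finset ι)
    (A : ι → (E → Bool) → Prop) :
    Pr p (fun ω => ∃ i ∈ s, A i ω) ≤ ∑ i ∈ s, Pr p (A i) := by
  classical
  induction s using Finset.induction_on with
  | empty => simp [Pr]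
  | insert a s ha ih =>
    rw [sum_insert ha]
    refine le_trans (Pr_mono h0 h1 (B := fun ω => A a ω ∨ ∃ i ∈ s, A i ω) ?_) ?_
    · rintro ω ⟨i, hi, h⟩
      rcases mem_insert.1 hi with rfl | hi
      · exact Or.inl h
      · exact Or.inr ⟨i, hi, h⟩
    · exact le_trans (Pr_or_le h0 h1 _ _) (by linarith)

theorem Pr_nonneg {p : ℝ} (h0 : 0 ≤ p) (h1 : p ≤ 1) (A : (E → Bool) → Prop) : 0 ≤ Pr p A := by
  unfold Pr
  refine sum_nonneg fun ω _ => ?_
  split_ifs
  · exact wt_nonneg h0 h1 ω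
  · exact le_rfl

open Classical in
/-- Second moment method with bad structures: `A s` are structures, `B s` bad events. -/
theorem second_moment {p : ℝ} (h0 : 0 ≤ p) (h1 : p ≤ 1) {T : Type*} [Fintype T]
    (A B : T → (E → Bool) → Prop) (π δ ε : ℝ) (hT : 0 < Fintype.card T) (hπ : 0 < π)
    (hA : ∀ s, Pr p (A s) = π)
    (hAA : ∑ s, ∑ t, Pr p (fun ω => A s ω ∧ A t ω) ≤ (1 + δ) * (Fintype.card T * π) ^ 2)
    (hB : ∀ s, Pr p (fun ω => A s ω ∧ B s ω) ≤ ε * π) :
    Pr p (fun ω => ∀ s, A s ω → B s ω) ≤ 4 * δ + 2 * ε := by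
  set μ : ℝ := Fintype.card T * π with hμ
  have hμ0 : 0 < μ := mul_pos (by exact_mod_cast hT) hπ
  set Z : (E → Bool) → ℝ := fun ω => ∑ s, if A s ω then (1 : ℝ) else 0 with hZ
  set Z' : (E → Bool) → ℝ := fun ω => ∑ s, if A s ω ∧ B s ω then (1 : ℝ) else 0 with hZ'
  have e1 : ∑ ω, wt p ω * Z ω = μ := by
    simp only [hZ, mul_sum]
    rw [sum_comm, hμ]
    rw [← nsmul_eq_mul, ← Finset.card_univ, ← sum_const]
    refine sum_congr rfl fun s _ => ?_
    rw [← hA s]
    unfold Pr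
    exact sum_congr rfl fun ω _ => by split_ifs <;> simp
  have e2 : ∑ ω, wt p ω * (Z ω) ^ 2 ≤ (1 + δ) * μ ^ 2 := by
    refine le_trans (le_of_eq ?_) hAA
    have hsq : ∀ ω : E → Bool, wt p ω * (Z ω) ^ 2 =
        ∑ s, ∑ t, wt p ω * ((if A s ω then (1 : ℝ) else 0) * (if A t ω then (1 : ℝ) else 0)) := by
      intro ω
      rw [hZ]
      beta_reduce
      rw [sq, sum_mul_sum, mul_sum]
      exact sum_congr rfl fun s _ => by rw [mul_sum]
    rw [Finset.sum_congr rfl (fun (ω : E → Bool) _ => hsq ω)]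
    rw [sum_comm]
    refine sum_congr rfl fun s _ => ?_
    rw [sum_comm]
    refine sum_congr rfl fun t _ => ?_
    unfold Pr
    refine sum_congr rfl fun ω _ => ?_
    by_cases h1 : A s ω <;> by_cases h2 : A t ω <;> simp [h1, h2]
  have e3 : ∑ ω, wt p ω * Z' ω ≤ ε * μ := by
    simp only [hZ', mul_sum]
    rw [sum_comm, hμ]
    have : ε * (Fintype.card T * π) = ∑ _s : T, ε * π := by
      rw [sum_const, Finset.card_univ, nsmul_eq_mul]
      ring
    rw [this]
    refine sum_le_sum fun s _ => ?_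
    refine le_trans (le_of_eq ?_) (hB s)
    unfold Pr
    exact sum_congr rfl fun ω _ => by split_ifs <;> simp
  have e4 : ∑ ω : E → Bool, wt p ω = 1 := by
    have := Pr_true (E := E) p
    unfold Pr at this
    simpa using this
  -- Chebyshev
  have c1 : Pr p (fun ω => Z ω ≤ μ / 2) ≤ 4 * δ := by
    have h2 : Pr p (fun ω => Z ω ≤ μ / 2) * (μ / 2) ^ 2 ≤ ∑ ω, wt p ω * (Z ω - μ) ^ 2 := by
      unfold Pr
      rw [sum_mul]
      refine sum_le_sum fun ω _ => ?_
      have hw := wt_nonneg h0 h1 ω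
      by_cases hc : Z ω ≤ μ / 2
      · rw [if_pos hc]
        refine mul_le_mul_of_nonneg_left ?_ hw
        nlinarith
      · rw [if_neg hc, zero_mul]
        positivity
    have h3 : ∑ ω, wt p ω * (Z ω - μ) ^ 2 ≤ δ * μ ^ 2 := by
      have h4 : ∑ ω, wt p ω * (Z ω - μ) ^ 2 =
          ∑ ω, wt p ω * (Z ω) ^ 2 - 2 * μ * ∑ ω, wt p ω * Z ω + μ ^ 2 * ∑ ω : E → Bool, wt p ω := by
        rw [mul_sum, mul_sum, ← sum_sub_distrib, ← sum_add_distrib]
        exact sum_congr rfl fun ω _ => by ring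
      rw [h4, e1, e4]
      nlinarith
    have h5 : Pr p (fun ω => Z ω ≤ μ / 2) * (μ ^ 2 / 4) ≤ δ * μ ^ 2 := by
      calc _ = Pr p (fun ω => Z ω ≤ μ / 2) * (μ / 2) ^ 2 := by ring
        _ ≤ _ := le_trans h2 h3
    have h6 : 0 < μ ^ 2 := by positivity
    by_contra hcon
    push Not at hcon
    nlinarith
  -- Markov
  have c2 : Pr p (fun ω => μ / 2 ≤ Z' ω) ≤ 2 * ε := by
    have hZ'0 : ∀ ω, 0 ≤ Z' ω := fun ω => sum_nonneg fun s _ => by split_ifs <;> norm_num
    have h2 : Pr p (fun ω => μ / 2 ≤ Z' ω) * (μ / 2) ≤ ∑ ω, wt p ω * Z' ω := by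
      unfold Pr
      rw [sum_mul]
      refine sum_le_sum fun ω _ => ?_
      have hw := wt_nonneg h0 h1 ω
      by_cases hc : μ / 2 ≤ Z' ω
      · rw [if_pos hc]
        exact mul_le_mul_of_nonneg_left hc hw
      · rw [if_neg hc, zero_mul]
        exact mul_nonneg hw (hZ'0 ω)
    by_contra hcon
    push Not at hcon
    nlinarith
  refine le_trans (Pr_mono h0 h1 (B := fun ω => Z ω ≤ μ / 2 ∨ μ / 2 ≤ Z' ω) ?_) ?_
  · intro ω h
    have : Z ω = Z' ω := by
      simp only [hZ, hZ']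
      refine sum_congr rfl fun s _ => ?_
      by_cases hs : A s ω
      · rw [if_pos hs, if_pos ⟨hs, h s hs⟩]
      · rw [if_neg hs, if_neg fun hh => hs hh.1]
    rw [this]
    exact le_total _ _
  · exact le_trans (Pr_or_le h0 h1 _ _) (by linarith)

end ProfArtin.RG
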