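import Pool.Agent.Work.MP_f6e909_al.Defs

/-!
# Right-angled Artin groups of random graphs (MP_f6e909_al): definitions
-/

namespace ProfArtin

open Classical in
/-- The Coxeter matrix of a graph: the label of two different vertices is `2` if they are
adjacent and `∞` (which is `0` in Mathlib's convention) if they are not. The Artin group of this
matrix is the right-angled Artin group of the graph. -/
noncomputable def raag {V : Type} (G : SimpleGraph V) : CoxeterMatrix V where
  M := fun v w => if v = w then 1 else if G.Adj v w then 2 else 0
  isSymm := by
    ext v w
    simp only [Matrix.transpose_apply, eq_comm, G.adj_comm]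
  diagonal := fun v => by simp
  off_diagonal := fun v w h => by
    rw [if_neg h]
    split_ifs <;> decide

/-- The probability of the graph `G` in the Erdős–Rényi model: the vertex set is `Fin n` and each
pair of vertices is an edge with probability `p`, independently of the others. For `p = 1/2` all
graphs on `Fin n` have the same probability. -/
noncomputable def erWeight (p : ℝ) {n : ℕ} (G : SimpleGraph (Fin n)) : ℝ :=
  p ^ G.edgeSet.ncard * (1 - p) ^ (n.choose 2 - G.edgeSet.ncard)

end ProfArtin
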