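import Mathlib

/-!
# Sums over pairs of selections, by the number of agreements
-/

namespace ProfArtin.RG

open Finset

/-- the set where two functions agree -/
def ag {b m : ℕ} (f g : Fin b → Fin m) : Finset (Fin b) := univ.filter fun a => f a = g a

theorem card_ag_eq {b m : ℕ} (f : Fin b → Fin m) (A : Finset (Fin b)) :
    (univ.filter fun g : Fin b → Fin m => ag f g = A).card ≤ m ^ (b - A.card) := by
  have h1 : (univ.filter fun g : Fin b → Fin m => ag f g = A) ⊆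
      Fintype.piFinset (fun a => if a ∈ A then ({f a} : Finset (Fin m)) else univ) := by
    intro g hg
    rw [mem_filter] at hg
    rw [Fintype.mem_piFinset]
    intro a
    by_cases ha : a ∈ A
    · rw [if_pos ha, mem_singleton]
      rw [← hg.2, ag, mem_filter] at ha
      exact ha.2.symm
    · rw [if_neg ha]
      exact mem_univ _
  refine (card_le_card h1).trans ?_
  rw [Fintype.card_piFinset]
  have h2 : ∀ a : Fin b, (if a ∈ A then ({f a} : Finset (Fin m)) else univ).card =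
      if a ∈ A then 1 else m := by
    intro a
    split_ifs <;> simp
  rw [prod_congr rfl fun a _ => h2 a, prod_ite]
  simp only [prod_const_one, one_mul, prod_const]
  refine le_of_eq ?_
  congr 1
  rw [filter_notMem_eq_sdiff, card_sdiff_of_subset (subset_univ A)]
  simp

theorem sum_ag {b m : ℕ} (f : Fin b → Fin m) (F : ℕ → ℝ) (hF : ∀ i, 0 ≤ F i) :
    ∑ g : Fin b → Fin m, F (ag f g).card ≤
      ∑ i ∈ range (b + 1), (b.choose i : ℝ) * ((m : ℝ) ^ (b - i) * F i) := by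
  have h1 : ∑ g : Fin b → Fin m, F (ag f g).card =
      ∑ A ∈ (univ : Finset (Fin b)).powerset,
        ∑ g ∈ univ.filter (fun g : Fin b → Fin m => ag f g = A), F (ag f g).card :=
    (sum_fiberwise_of_maps_to (fun g _ => by simp) _).symm
  rw [h1]
  have h2 : ∑ i ∈ range (b + 1), (b.choose i : ℝ) * ((m : ℝ) ^ (b - i) * F i) =
      ∑ A ∈ (univ : Finset (Fin b)).powerset, (m : ℝ) ^ (b - A.card) * F A.card := by
    have := sum_powerset_apply_card (fun i => (m : ℝ) ^ (b - i) * F i)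
      (x := (univ : Finset (Fin b)))
    rw [this]
    simp [nsmul_eq_mul]
  rw [h2]
  refine sum_le_sum fun A _ => ?_
  have h3 : ∑ g ∈ univ.filter (fun g : Fin b → Fin m => ag f g = A), F (ag f g).card =
      ((univ.filter (fun g : Fin b → Fin m => ag f g = A)).card : ℝ) * F A.card := by
    rw [← nsmul_eq_mul, ← sum_const]
    refine sum_congr rfl fun g hg => ?_
    rw [(mem_filter.1 hg).2]
  rw [h3]
  refine mul_le_mul_of_nonneg_right ?_ (hF _)
  exact_mod_cast card_ag_eq f A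

theorem choose_bound {b m i : ℕ} (hm : 0 < m) (hi : i ≤ b) :
    (b.choose i : ℝ) * (m : ℝ) ^ (b - i) ≤ (m : ℝ) ^ b * ((b : ℝ) / m) ^ i := by
  have hm' : (0 : ℝ) < m := by exact_mod_cast hm
  have h1 : (b.choose i : ℝ) ≤ (b : ℝ) ^ i := by exact_mod_cast Nat.choose_le_pow b i
  have h2 : (m : ℝ) ^ b = (m : ℝ) ^ (b - i) * (m : ℝ) ^ i := by
    rw [← pow_add]
    congr 1
    omega
  rw [h2, div_pow]
  have h3 : (m : ℝ) ^ i ≠ 0 := (pow_pos hm' i).ne'
  calc (b.choose i : ℝ) * (m : ℝ) ^ (b - i) ≤ (b : ℝ) ^ i * (m : ℝ) ^ (b - i) :=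
        mul_le_mul_of_nonneg_right h1 (by positivity)
    _ = (m : ℝ) ^ (b - i) * (m : ℝ) ^ i * ((b : ℝ) ^ i / (m : ℝ) ^ i) := by
        field_simp

theorem sum_ag' {b m : ℕ} (hm : 0 < m) (f : Fin b → Fin m) (F : ℕ → ℝ) (hF : ∀ i, 0 ≤ F i) :
    ∑ g : Fin b → Fin m, F (ag f g).card ≤
      (m : ℝ) ^ b * ∑ i ∈ range (b + 1), ((b : ℝ) / m) ^ i * F i := by
  refine (sum_ag f F hF).trans ?_
  rw [mul_sum]
  refine sum_le_sum fun i hi => ?_
  have := choose_bound hm (b := b) (i := i) (by simpa [Nat.lt_succ_iff] using hi)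
  calc (b.choose i : ℝ) * ((m : ℝ) ^ (b - i) * F i)
      = (b.choose i : ℝ) * (m : ℝ) ^ (b - i) * F i := by ring
    _ ≤ (m : ℝ) ^ b * ((b : ℝ) / m) ^ i * F i := mul_le_mul_of_nonneg_right this (hF i)
    _ = _ := by ring

theorem kappa_term {κ β : ℝ} (h0 : 0 ≤ κ) (hβ : 1 ≤ β) {b : ℕ} (hκ : κ ^ 2 * β ^ (b + 1) ≤ 1)
    {i j : ℕ} (hi : i < b) (hj : j < b) :
    κ ^ (i + 1 + (j + 1)) * β ^ ((i + 1) * (j + 1)) ≤ κ ^ 2 * β := by
  have h1 : κ ^ (i + 1 + (j + 1)) * β ^ ((i + 1) * (j + 1)) =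
      (κ ^ (i + j) * β ^ (i * j + i + j)) * (κ ^ 2 * β) := by
    have e1 : i + 1 + (j + 1) = i + j + 2 := by ring
    have e2 : (i + 1) * (j + 1) = i * j + i + j + 1 := by ring
    rw [e1, e2, pow_add κ (i + j) 2, pow_succ β]
    ring
  rw [h1]
  have hβ0 : 0 ≤ β := by linarith
  have h2 : κ ^ (i + j) * β ^ (i * j + i + j) ≤ 1 := by
    have h3 : (κ ^ (i + j) * β ^ (i * j + i + j)) ^ 2 ≤ 1 := by
      calc (κ ^ (i + j) * β ^ (i * j + i + j)) ^ 2
          = (κ ^ 2) ^ (i + j) * β ^ (2 * (i * j + i + j)) := by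
            rw [mul_pow, ← pow_mul, ← pow_mul, ← pow_mul]
            congr 1
            · congr 1; ring
            · congr 1; ring
        _ ≤ (κ ^ 2) ^ (i + j) * β ^ ((b + 1) * (i + j)) := by
            refine mul_le_mul_of_nonneg_left ?_ (by positivity)
            refine pow_le_pow_right₀ hβ ?_
            have e1 : i * (j + 2) ≤ i * (b + 1) := Nat.mul_le_mul_left _ (by omega)
            have e2 : j * (i + 2) ≤ j * (b + 1) := Nat.mul_le_mul_left _ (by omega)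
            nlinarith
        _ = (κ ^ 2 * β ^ (b + 1)) ^ (i + j) := by
            rw [mul_pow, ← pow_mul β]
        _ ≤ 1 := pow_le_one₀ (by positivity) hκ
    have h4 : 0 ≤ κ ^ (i + j) * β ^ (i * j + i + j) := by positivity
    nlinarith
  calc _ ≤ 1 * (κ ^ 2 * β) := mul_le_mul_of_nonneg_right h2 (by positivity)
    _ = _ := one_mul _

theorem kappa_sum {κ β : ℝ} (h0 : 0 ≤ κ) (h1 : κ ≤ 1) (hβ : 1 ≤ β) {b : ℕ}
    (hκ : κ ^ 2 * β ^ (b + 1) ≤ 1) :
    ∑ i ∈ range (b + 1), ∑ j ∈ range (b + 1), κ ^ (i + j) * β ^ (i * j) ≤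
      1 + (2 * b * κ + b ^ 2 * (κ ^ 2 * β)) := by
  have hpow : ∀ i : ℕ, κ ^ (i + 1) ≤ κ := fun i => by
    rw [pow_succ]
    calc κ ^ i * κ ≤ 1 * κ := mul_le_mul_of_nonneg_right (pow_le_one₀ h0 h1) h0
      _ = κ := one_mul _
  rw [sum_range_succ']
  have hA : ∑ j ∈ range (b + 1), κ ^ (0 + j) * β ^ (0 * j) ≤ b * κ + 1 := by
    rw [sum_range_succ']
    simp only [zero_add, zero_mul, pow_zero, mul_one]
    have : ∑ i ∈ range b, κ ^ (i + 1) ≤ ∑ _i ∈ range b, κ := sum_le_sum fun i _ => hpow i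
    rw [sum_const, card_range, nsmul_eq_mul] at this
    linarith
  have hB : ∀ i ∈ range b, ∑ j ∈ range (b + 1), κ ^ (i + 1 + j) * β ^ ((i + 1) * j) ≤
      b * (κ ^ 2 * β) + κ := by
    intro i hi
    rw [sum_range_succ']
    have h2 : ∑ j ∈ range b, κ ^ (i + 1 + (j + 1)) * β ^ ((i + 1) * (j + 1)) ≤
        ∑ _j ∈ range b, κ ^ 2 * β :=
      sum_le_sum fun j hj => kappa_term h0 hβ hκ (mem_range.1 hi) (mem_range.1 hj)
    rw [sum_const, card_range, nsmul_eq_mul] at h2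
    have h3 : κ ^ (i + 1 + 0) * β ^ ((i + 1) * 0) ≤ κ := by
      rw [add_zero, mul_zero, pow_zero, mul_one]
      exact hpow i
    linarith
  have hC := sum_le_sum hB
  rw [sum_const, card_range, nsmul_eq_mul] at hC
  nlinarith

/-- the sum over all pairs of functions -/
theorem sum_pair {b m : ℕ} (hm : 0 < m) {α β : ℝ} (hα : 0 ≤ α) (hβ : 1 ≤ β)
    (h1 : α * b / m ≤ 1) (hκ : (α * b / m) ^ 2 * β ^ (b + 1) ≤ 1) (f f' : Fin b → Fin m) :
    ∑ g : Fin b → Fin m, ∑ g' : Fin b → Fin m,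
      α ^ ((ag f g).card + (ag f' g').card) * β ^ ((ag f g).card * (ag f' g').card) ≤
      ((m : ℝ) ^ b) ^ 2 *
        (1 + (2 * b * (α * b / m) + b ^ 2 * ((α * b / m) ^ 2 * β))) := by
  have hm' : (0 : ℝ) < m := by exact_mod_cast hm
  have hβ0 : 0 ≤ β := by linarith
  have hκ0 : 0 ≤ α * b / m := by positivity
  calc ∑ g : Fin b → Fin m, ∑ g' : Fin b → Fin m,
      α ^ ((ag f g).card + (ag f' g').card) * β ^ ((ag f g).card * (ag f' g').card)
      ≤ ∑ g : Fin b → Fin m, (m : ℝ) ^ b * ∑ j ∈ range (b + 1), ((b : ℝ) / m) ^ j *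
          (α ^ ((ag f g).card + j) * β ^ ((ag f g).card * j)) := by
        refine sum_le_sum fun g _ => ?_
        exact sum_ag' hm f' (fun j => α ^ ((ag f g).card + j) * β ^ ((ag f g).card * j))
          fun j => by positivity
    _ ≤ (m : ℝ) ^ b * ∑ i ∈ range (b + 1), ((b : ℝ) / m) ^ i *
          ((m : ℝ) ^ b * ∑ j ∈ range (b + 1), ((b : ℝ) / m) ^ j * (α ^ (i + j) * β ^ (i * j))) :=
        sum_ag' hm f (fun i => (m : ℝ) ^ b * ∑ j ∈ range (b + 1), ((b : ℝ) / m) ^ j *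
          (α ^ (i + j) * β ^ (i * j))) fun i => by positivity
    _ = ((m : ℝ) ^ b) ^ 2 * ∑ i ∈ range (b + 1), ∑ j ∈ range (b + 1),
          (α * b / m) ^ (i + j) * β ^ (i * j) := by
        rw [mul_sum, mul_sum]
        refine sum_congr rfl fun i _ => ?_
        rw [mul_sum, mul_sum, mul_sum, mul_sum]
        refine sum_congr rfl fun j _ => ?_
        have : α * b / m = α * ((b : ℝ) / m) := by ring
        rw [this, mul_pow, pow_add ((b : ℝ) / m) i j]
        ring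
    _ ≤ _ := mul_le_mul_of_nonneg_left (kappa_sum hκ0 h1 hβ hκ) (by positivity)

end ProfArtin.RG
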