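import Pool.Agent.Work.MP_f6e909_al.RG.Cyl
import Pool.Agent.Work.MP_f6e909_al.RG.Sum

/-!
# The cylinder events of the selections and their pairs
-/

namespace ProfArtin.RG

open Finset

/-- selections: one element of each of the `b` boxes of size `m` on each side -/
abbrev Sel (b m : ℕ) : Type := (Fin b → Fin m) × (Fin b → Fin m)

/-- the two functions of a selection -/
def sfn {b m : ℕ} (s : Sel b m) (i : Fin 2) : Fin b → Fin m := if i = 0 then s.1 else s.2

variable {E : Type*} [DecidableEq E] {b m : ℕ}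

/-- the coordinates which are `true` -/
def D1 (φ : Fin 2 × Fin 2 × Fin b × Fin m → E) (s : Sel b m) : Finset E :=
  univ.image fun r : Fin 2 × Fin 2 × Fin b => φ (r.1, r.2.1, r.2.2, sfn s r.2.1 r.2.2)

/-- the coordinates which are `false` -/
def D2 (ψ : (Fin b × Fin m) × (Fin b × Fin m) → E) (s : Sel b m) : Finset E :=
  univ.image fun r : Fin b × Fin b => ψ ((r.1, s.1 r.1), (r.2, s.2 r.2))

theorem card_D1 {φ : Fin 2 × Fin 2 × Fin b × Fin m → E} (hφ : Function.Injective φ)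
    (s : Sel b m) : (D1 φ s).card = 4 * b := by
  unfold D1
  rw [card_image_of_injective]
  · simp
    ring
  · rintro ⟨j, i, a⟩ ⟨j', i', a'⟩ h
    have := hφ h
    simp only [Prod.mk.injEq] at this
    obtain ⟨rfl, rfl, rfl, -⟩ := this
    rfl

theorem card_D2 {ψ : (Fin b × Fin m) × (Fin b × Fin m) → E} (hψ : Function.Injective ψ)
    (s : Sel b m) : (D2 ψ s).card = b * b := by
  unfold D2
  rw [card_image_of_injective]
  · simp
  · rintro ⟨a, a'⟩ ⟨c, c'⟩ h
    have := hψ h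
    simp only [Prod.mk.injEq] at this
    obtain ⟨⟨rfl, -⟩, rfl, -⟩ := this
    rfl

theorem card_D1_inter {φ : Fin 2 × Fin 2 × Fin b × Fin m → E} (hφ : Function.Injective φ)
    (s t : Sel b m) :
    (D1 φ s ∩ D1 φ t).card ≤ 2 * ((ag s.1 t.1).card + (ag s.2 t.2).card) := by
  have h1 : D1 φ s ∩ D1 φ t ⊆ (univ.filter fun r : Fin 2 × Fin 2 × Fin b =>
      sfn s r.2.1 r.2.2 = sfn t r.2.1 r.2.2).image
      fun r => φ (r.1, r.2.1, r.2.2, sfn s r.2.1 r.2.2) := by
    intro e he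
    rw [mem_inter, D1, D1, mem_image, mem_image] at he
    obtain ⟨⟨r, -, hr⟩, ⟨r', -, hr'⟩⟩ := he
    rw [mem_image]
    refine ⟨r, ?_, hr⟩
    rw [mem_filter]
    refine ⟨mem_univ _, ?_⟩
    have := hφ (hr.trans hr'.symm)
    obtain ⟨j, i, a⟩ := r
    obtain ⟨j', i', a'⟩ := r'
    simp only [Prod.mk.injEq] at this
    obtain ⟨rfl, rfl, rfl, h⟩ := this
    exact h
  refine (card_le_card h1).trans (card_image_le.trans ?_)
  rw [card_filter, Fintype.sum_prod_type, Fin.sum_univ_two, Fintype.sum_prod_type,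
    Fin.sum_univ_two]
  simp only [sfn, if_true, one_ne_zero, if_false, ag, card_filter]
  omega

theorem card_D2_inter {ψ : (Fin b × Fin m) × (Fin b × Fin m) → E} (hψ : Function.Injective ψ)
    (s t : Sel b m) :
    (D2 ψ s ∩ D2 ψ t).card ≤ (ag s.1 t.1).card * (ag s.2 t.2).card := by
  have h1 : D2 ψ s ∩ D2 ψ t ⊆ (ag s.1 t.1 ×ˢ ag s.2 t.2).image
      fun r => ψ ((r.1, s.1 r.1), (r.2, s.2 r.2)) := by
    intro e he
    rw [mem_inter, D2, D2, mem_image, mem_image] at he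
    obtain ⟨⟨r, -, hr⟩, ⟨r', -, hr'⟩⟩ := he
    rw [mem_image]
    refine ⟨r, ?_, hr⟩
    have := hψ (hr.trans hr'.symm)
    obtain ⟨a, a'⟩ := r
    obtain ⟨c, c'⟩ := r'
    simp only [Prod.mk.injEq] at this
    obtain ⟨⟨rfl, h⟩, rfl, h'⟩ := this
    rw [mem_product, ag, ag, mem_filter, mem_filter]
    exact ⟨⟨mem_univ _, h⟩, mem_univ _, h'⟩
  refine (card_le_card h1).trans (card_image_le.trans ?_)
  rw [card_product]

omit [DecidableEq E] in
theorem prod_w1 (p : ℝ) (v : E → Bool) (F : Finset E) :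
    ∏ e ∈ F, w1 p (v e) = p ^ (F.filter fun e => v e = true).card *
      (1 - p) ^ (F.filter fun e => ¬ v e = true).card := by
  unfold w1
  rw [prod_ite, prod_const, prod_const]

variable [Fintype E]

/-- the data of the edges -/
structure EdgeData (E : Type*) [DecidableEq E] (b m : ℕ) where
  φ : Fin 2 × Fin 2 × Fin b × Fin m → E
  ψ : (Fin b × Fin m) × (Fin b × Fin m) → E
  v : E → Bool
  hφ : Function.Injective φ
  hψ : Function.Injective ψ
  vφ : ∀ r, v (φ r) = true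
  vψ : ∀ r, v (ψ r) = false

/-- the event that a selection is good -/
def EdgeData.A (d : EdgeData E b m) (s : Sel b m) (ω : E → Bool) : Prop :=
  ∀ e ∈ D1 d.φ s ∪ D2 d.ψ s, ω e = d.v e

omit [Fintype E] in
theorem EdgeData.v1 (d : EdgeData E b m) (s : Sel b m) : ∀ e ∈ D1 d.φ s, d.v e = true := by
  intro e he
  rw [D1, mem_image] at he
  obtain ⟨r, -, rfl⟩ := he
  exact d.vφ _

omit [Fintype E] in
theorem EdgeData.v2 (d : EdgeData E b m) (s : Sel b m) : ∀ e ∈ D2 d.ψ s, d.v e = false := by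
  intro e he
  rw [D2, mem_image] at he
  obtain ⟨r, -, rfl⟩ := he
  exact d.vψ _

omit [Fintype E] in
theorem EdgeData.disj (d : EdgeData E b m) (s : Sel b m) : Disjoint (D1 d.φ s) (D2 d.ψ s) := by
  rw [Finset.disjoint_left]
  intro e he he'
  have h1 := d.v1 s e he
  rw [d.v2 s e he'] at h1
  exact absurd h1 (by decide)

omit [Fintype E] in
theorem EdgeData.prodA (d : EdgeData E b m) (p : ℝ) (s : Sel b m) :
    ∏ e ∈ D1 d.φ s ∪ D2 d.ψ s, w1 p (d.v e) = p ^ (4 * b) * (1 - p) ^ (b * b) := by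
  rw [prod_union (d.disj s), prod_congr rfl fun e he => by rw [d.v1 s e he],
    prod_congr (s₁ := D2 d.ψ s) rfl fun e he => by rw [d.v2 s e he], prod_const, prod_const,
    card_D1 d.hφ, card_D2 d.hψ]
  simp [w1]

theorem EdgeData.PrA (d : EdgeData E b m) (p : ℝ) (s : Sel b m) :
    Pr p (d.A s) = p ^ (4 * b) * (1 - p) ^ (b * b) := by
  rw [← d.prodA p s, ← Pr_cyl]
  rfl

theorem EdgeData.PrAA (d : EdgeData E b m) {p : ℝ} (h0 : 0 < p) (h1 : p < 1) (s t : Sel b m) :
    Pr p (fun ω => d.A s ω ∧ d.A t ω) ≤ (p ^ (4 * b) * (1 - p) ^ (b * b)) ^ 2 *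
      (((1 / p) ^ 2) ^ ((ag s.1 t.1).card + (ag s.2 t.2).card) *
        (1 / (1 - p)) ^ ((ag s.1 t.1).card * (ag s.2 t.2).card)) := by
  have hq : 0 < 1 - p := by linarith
  set Ds := D1 d.φ s ∪ D2 d.ψ s with hDs
  set Dt := D1 d.φ t ∪ D2 d.ψ t with hDt
  have e1 : Pr p (fun ω => d.A s ω ∧ d.A t ω) = ∏ e ∈ Ds ∪ Dt, w1 p (d.v e) := by
    rw [← Pr_cyl]
    congr 1
    ext ω
    constructor
    · rintro ⟨h, h'⟩ e he
      rcases mem_union.1 he with he | he
      · exact h e he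
      · exact h' e he
    · intro h
      exact ⟨fun e he => h e (mem_union_left _ he), fun e he => h e (mem_union_right _ he)⟩
  have e2 : (∏ e ∈ Ds ∪ Dt, w1 p (d.v e)) * ∏ e ∈ Ds ∩ Dt, w1 p (d.v e) =
      (p ^ (4 * b) * (1 - p) ^ (b * b)) ^ 2 := by
    rw [prod_union_inter, sq, hDs, hDt, d.prodA p s, d.prodA p t]
  set i := (ag s.1 t.1).card with hi
  set j := (ag s.2 t.2).card with hj
  have e3 : p ^ (2 * (i + j)) * (1 - p) ^ (i * j) ≤ ∏ e ∈ Ds ∩ Dt, w1 p (d.v e) := by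
    rw [prod_w1]
    refine mul_le_mul ?_ ?_ (by positivity) (by positivity)
    · refine pow_le_pow_of_le_one h0.le h1.le ?_
      refine le_trans (card_le_card ?_) (card_D1_inter d.hφ s t)
      intro e he
      rw [mem_filter, mem_inter, hDs, hDt, mem_union, mem_union] at he
      obtain ⟨⟨h3, h4⟩, h5⟩ := he
      rw [mem_inter]
      constructor
      · rcases h3 with h3 | h3
        · exact h3
        · rw [d.v2 s e h3] at h5
          exact absurd h5 (by decide)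
      · rcases h4 with h4 | h4
        · exact h4
        · rw [d.v2 t e h4] at h5
          exact absurd h5 (by decide)
    · refine pow_le_pow_of_le_one hq.le (by linarith) ?_
      refine le_trans (card_le_card ?_) (card_D2_inter d.hψ s t)
      intro e he
      rw [mem_filter, mem_inter, hDs, hDt, mem_union, mem_union] at he
      obtain ⟨⟨h3, h4⟩, h5⟩ := he
      rw [mem_inter]
      constructor
      · rcases h3 with h3 | h3
        · exact absurd (d.v1 s e h3) h5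
        · exact h3
      · rcases h4 with h4 | h4
        · exact absurd (d.v1 t e h4) h5
        · exact h4
  have hpos : 0 < p ^ (2 * (i + j)) * (1 - p) ^ (i * j) := by positivity
  have hU : 0 ≤ ∏ e ∈ Ds ∪ Dt, w1 p (d.v e) :=
    prod_nonneg fun e _ => w1_nonneg h0.le h1.le _
  rw [e1]
  have e4 : (∏ e ∈ Ds ∪ Dt, w1 p (d.v e)) * (p ^ (2 * (i + j)) * (1 - p) ^ (i * j)) ≤
      (p ^ (4 * b) * (1 - p) ^ (b * b)) ^ 2 := by
    rw [← e2]
    exact mul_le_mul_of_nonneg_left e3 hU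
  have e5 : ((1 / p) ^ 2) ^ (i + j) * (1 / (1 - p)) ^ (i * j) =
      (p ^ (2 * (i + j)) * (1 - p) ^ (i * j))⁻¹ := by
    rw [mul_inv, ← pow_mul, one_div, one_div, inv_pow, inv_pow]
  rw [e5, ← div_eq_mul_inv, le_div_iff₀ hpos]
  exact e4

theorem EdgeData.PrAN (d : EdgeData E b m) (p : ℝ) (s : Sel b m) (N : Finset E)
    (hN : Disjoint (D1 d.φ s ∪ D2 d.ψ s) N) (hv : ∀ e ∈ N, d.v e = false) :
    Pr p (fun ω => d.A s ω ∧ ∀ e ∈ N, ω e = false) =
      p ^ (4 * b) * (1 - p) ^ (b * b) * (1 - p) ^ N.card := by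
  have e1 : Pr p (fun ω => d.A s ω ∧ ∀ e ∈ N, ω e = false) =
      ∏ e ∈ (D1 d.φ s ∪ D2 d.ψ s) ∪ N, w1 p (d.v e) := by
    rw [← Pr_cyl]
    congr 1
    ext ω
    constructor
    · rintro ⟨h, h'⟩ e he
      rcases mem_union.1 he with he | he
      · exact h e he
      · rw [hv e he]
        exact h' e he
    · intro h
      exact ⟨fun e he => h e (mem_union_left _ he), fun e he => by
        rw [h e (mem_union_right _ he), hv e he]⟩
  rw [e1, prod_union hN, d.prodA, prod_congr (s₁ := N) rfl fun e he => by rw [hv e he],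
    prod_const]
  simp [w1]

/-- the second moment bound for the selections -/
theorem EdgeData.sumAA (d : EdgeData E b m) {p : ℝ} (h0 : 0 < p) (h1 : p < 1) (hm : 0 < m)
    (hk1 : (1 / p) ^ 2 * b / m ≤ 1)
    (hk2 : ((1 / p) ^ 2 * b / m) ^ 2 * (1 / (1 - p)) ^ (b + 1) ≤ 1) :
    ∑ s : Sel b m, ∑ t : Sel b m, Pr p (fun ω => d.A s ω ∧ d.A t ω) ≤
      (1 + (2 * b * ((1 / p) ^ 2 * b / m) +
        b ^ 2 * (((1 / p) ^ 2 * b / m) ^ 2 * (1 / (1 - p))))) *
        (Fintype.card (Sel b m) * (p ^ (4 * b) * (1 - p) ^ (b * b))) ^ 2 := by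
  have hq : 0 < 1 - p := by linarith
  have hβ : 1 ≤ 1 / (1 - p) := by
    rw [le_div_iff₀ hq]
    linarith
  set π := p ^ (4 * b) * (1 - p) ^ (b * b) with hπ
  have hπ0 : 0 < π := by positivity
  set δ := 2 * b * ((1 / p) ^ 2 * b / m) +
        b ^ 2 * (((1 / p) ^ 2 * b / m) ^ 2 * (1 / (1 - p))) with hδ
  have e1 : ∀ s : Sel b m, ∑ t : Sel b m, Pr p (fun ω => d.A s ω ∧ d.A t ω) ≤
      π ^ 2 * (((m : ℝ) ^ b) ^ 2 * (1 + δ)) := by
    intro s
    calc ∑ t : Sel b m, Pr p (fun ω => d.A s ω ∧ d.A t ω)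
        ≤ ∑ t : Sel b m, π ^ 2 *
          (((1 / p) ^ 2) ^ ((ag s.1 t.1).card + (ag s.2 t.2).card) *
            (1 / (1 - p)) ^ ((ag s.1 t.1).card * (ag s.2 t.2).card)) :=
          sum_le_sum fun t _ => d.PrAA h0 h1 s t
      _ = π ^ 2 * ∑ g : Fin b → Fin m, ∑ g' : Fin b → Fin m,
          (((1 / p) ^ 2) ^ ((ag s.1 g).card + (ag s.2 g').card) *
            (1 / (1 - p)) ^ ((ag s.1 g).card * (ag s.2 g').card)) := by
          rw [← mul_sum, Fintype.sum_prod_type]
      _ ≤ _ := mul_le_mul_of_nonneg_left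
          (sum_pair hm (by positivity) hβ hk1 hk2 s.1 s.2) (by positivity)
  refine (sum_le_sum fun s _ => e1 s).trans ?_
  rw [sum_const, Finset.card_univ, nsmul_eq_mul]
  have e2 : (Fintype.card (Sel b m) : ℝ) = ((m : ℝ) ^ b) ^ 2 := by
    rw [Fintype.card_prod]
    simp
    ring
  rw [e2]
  refine le_of_eq ?_
  ring

end ProfArtin.RG
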