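import Pool.Agent.Work.MP_f6e909_al.RG.Defs
import Pool.Agent.Work.MP_f6e909_al.RG.Pair

/-!
# Random graphs from product weights
-/

namespace ProfArtin.RG

open Finset

variable {n : ℕ}

theorem raag_of_adj {V : Type} (G : SimpleGraph V) {v w : V} (h : G.Adj v w) :
    raag G v w = 2 := by
  simp only [raag]
  rw [if_neg h.ne, if_pos h]

theorem raag_of_not_adj {V : Type} (G : SimpleGraph V) {v w : V} (hne : v ≠ w)
    (h : ¬ G.Adj v w) : raag G v w = 0 := by
  simp only [raag]
  rw [if_neg hne, if_neg h]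

/-- the graph of a point of the product space -/
def gr (ω : Sym2 (Fin n) → Bool) : SimpleGraph (Fin n) :=
  SimpleGraph.fromEdgeSet {e | ω e = true}

theorem gr_adj (ω : Sym2 (Fin n) → Bool) (v w : Fin n) :
    (gr ω).Adj v w ↔ ω s(v, w) = true ∧ v ≠ w := by
  rw [gr, SimpleGraph.fromEdgeSet_adj]
  rfl

theorem gr_eq_iff (ω : Sym2 (Fin n) → Bool) (G : SimpleGraph (Fin n))
    [DecidablePred (· ∈ G.edgeSet)] :
    gr ω = G ↔ ∀ e ∈ univ.filter (fun e : Sym2 (Fin n) => ¬ e.IsDiag),
      ω e = decide (e ∈ G.edgeSet) := by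
  constructor
  · rintro rfl e he
    rw [mem_filter] at he
    have : e ∈ (gr ω).edgeSet ↔ ω e = true := by
      rw [gr, SimpleGraph.edgeSet_fromEdgeSet]
      constructor
      · intro h
        exact h.1
      · intro h
        exact ⟨h, fun h2 => he.2 h2⟩
    by_cases h : ω e = true
    · rw [h, eq_comm, decide_eq_true_iff]
      exact this.2 h
    · have h3 : ¬ e ∈ (gr ω).edgeSet := fun h4 => h (this.1 h4)
      rw [Bool.not_eq_true] at h
      rw [h, eq_comm, decide_eq_false_iff_not]
      exact h3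
  · intro h
    ext v w
    rw [gr_adj]
    by_cases hvw : v = w
    · subst hvw
      simp
    · have h2 := h s(v, w) (by
        rw [mem_filter]
        exact ⟨mem_univ _, by rwa [Sym2.mk_isDiag_iff]⟩)
      rw [h2, decide_eq_true_iff, SimpleGraph.mem_edgeSet]
      exact and_iff_left hvw

open Classical in
theorem Pr_gr_eq (p : ℝ) (G : SimpleGraph (Fin n)) :
    Pr p (fun ω : Sym2 (Fin n) → Bool => gr ω = G) = erWeight p G := by
  have e1 : Pr p (fun ω : Sym2 (Fin n) → Bool => gr ω = G) =
      ∏ e ∈ univ.filter (fun e : Sym2 (Fin n) => ¬ e.IsDiag),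
        w1 p (decide (e ∈ G.edgeSet)) := by
    rw [← Pr_cyl p _ (fun e => decide (e ∈ G.edgeSet))]
    congr 1
    ext ω
    exact gr_eq_iff ω G
  rw [e1, prod_w1, erWeight]
  have e2 : ((univ.filter fun e : Sym2 (Fin n) => ¬ e.IsDiag).filter
      fun e => decide (e ∈ G.edgeSet) = true) = G.edgeSet.toFinset := by
    ext e
    simp only [mem_filter, mem_univ, true_and, decide_eq_true_eq, Set.mem_toFinset]
    constructor
    · exact fun h => h.2
    · exact fun h => ⟨G.not_isDiag_of_mem_edgeSet h, h⟩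
  have e3 : ((univ.filter fun e : Sym2 (Fin n) => ¬ e.IsDiag).filter
      fun e => decide (e ∈ G.edgeSet) = true).card = G.edgeSet.ncard := by
    rw [e2, Set.ncard_eq_toFinset_card']
  have e4 := card_filter_add_card_filter_not
    (s := univ.filter fun e : Sym2 (Fin n) => ¬ e.IsDiag)
    (fun e => decide (e ∈ G.edgeSet) = true)
  have e5 : (univ.filter fun e : Sym2 (Fin n) => ¬ e.IsDiag).card = n.choose 2 := by
    have := Sym2.card_subtype_not_diag (α := Fin n)
    rw [Fintype.card_subtype, Fintype.card_fin] at this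
    exact this
  rw [e5] at e4
  rw [e3] at e4 ⊢
  congr 2
  omega

open Classical in
theorem Pr_gr (p : ℝ) (R : SimpleGraph (Fin n) → Prop) :
    Pr p (fun ω : Sym2 (Fin n) → Bool => R (gr ω)) =
      ∑ G : SimpleGraph (Fin n), if R G then erWeight p G else 0 := by
  have e1 : Pr p (fun ω : Sym2 (Fin n) → Bool => R (gr ω)) =
      ∑ G : SimpleGraph (Fin n), ∑ ω ∈ univ.filter (fun ω : Sym2 (Fin n) → Bool => gr ω = G),
        if R (gr ω) then wt p ω else 0 := by
    unfold Pr
    exact (sum_fiberwise_of_maps_to (fun ω _ => mem_univ (gr ω)) _).symm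
  rw [e1]
  refine sum_congr rfl fun G _ => ?_
  by_cases h : R G
  · rw [if_pos h, ← Pr_gr_eq, Pr_filter]
    refine sum_congr rfl fun ω hω => ?_
    rw [(mem_filter.1 hω).2, if_pos h]
  · rw [if_neg h]
    refine sum_eq_zero fun ω hω => ?_
    rw [(mem_filter.1 hω).2, if_neg h]

end ProfArtin.RG
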