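import Mathlib

/-!
# The parameters
-/

namespace ProfArtin.RG

open Finset Filter Topology

theorem exists_b {β : ℝ} (hβ : 1 < β) {K : ℝ} (hK : 0 < K) : ∀ᶠ n : ℕ in atTop, ∃ b : ℕ,
    0 < b ∧ (n : ℝ) ^ 3 ≤ β ^ (2 * b) ∧ β ^ (2 * b) ≤ β ^ 2 * (n : ℝ) ^ 3 ∧
      K * (b : ℝ) ^ 8 ≤ n := by
  have hβ0 : 0 < β := by linarith
  have hr : 1 < β ^ 2 := one_lt_pow₀ hβ two_ne_zero
  have h1 := tendsto_pow_const_div_const_pow_of_one_lt 24 hr
  have h2 : ∀ᶠ b : ℕ in atTop, (b : ℝ) ^ 24 / (β ^ 2) ^ b < 1 / (K ^ 3 * β ^ 2) :=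
    h1.eventually_lt_const (by positivity)
  obtain ⟨b₀, hb₀⟩ := eventually_atTop.1 h2
  have h3 : ∀ᶠ n : ℕ in atTop, β ^ (2 * b₀) < (n : ℝ) := by
    have := tendsto_natCast_atTop_atTop (R := ℝ)
    exact this.eventually_gt_atTop _
  filter_upwards [h3, eventually_ge_atTop 1] with n hn hn1
  have hn1' : (1 : ℝ) ≤ n := by exact_mod_cast hn1
  have hnn : (n : ℝ) ≤ (n : ℝ) ^ 3 := by
    calc (n : ℝ) = (n : ℝ) ^ 1 := (pow_one _).symm
      _ ≤ (n : ℝ) ^ 3 := pow_le_pow_right₀ hn1' (by norm_num)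
  have hex : ∃ b : ℕ, (n : ℝ) ^ 3 ≤ β ^ (2 * b) := by
    obtain ⟨b, hb⟩ := pow_unbounded_of_one_lt ((n : ℝ) ^ 3) hr
    refine ⟨b, ?_⟩
    rw [pow_mul]
    exact hb.le
  classical
  set b := Nat.find hex with hbdef
  have hb : (n : ℝ) ^ 3 ≤ β ^ (2 * b) := Nat.find_spec hex
  have hbb : b₀ < b := by
    by_contra hcon
    push Not at hcon
    have : β ^ (2 * b) ≤ β ^ (2 * b₀) := pow_le_pow_right₀ hβ.le (by omega)
    linarith
  have hb1 : 0 < b := by omega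
  have hmin : ¬ (n : ℝ) ^ 3 ≤ β ^ (2 * (b - 1)) := Nat.find_min hex (by omega)
  push Not at hmin
  have hup : β ^ (2 * b) ≤ β ^ 2 * (n : ℝ) ^ 3 := by
    have e : β ^ (2 * b) = β ^ 2 * β ^ (2 * (b - 1)) := by
      rw [← pow_add]
      congr 1
      omega
    rw [e]
    exact mul_le_mul_of_nonneg_left hmin.le (by positivity)
  refine ⟨b, hb1, hb, hup, ?_⟩
  have h4 := hb₀ b hbb.le
  rw [← pow_mul, div_lt_div_iff₀ (by positivity) (by positivity), one_mul] at h4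
  have h5 : (K * (b : ℝ) ^ 8) ^ 3 ≤ (n : ℝ) ^ 3 := by
    have h6 : (b : ℝ) ^ 24 * (K ^ 3 * β ^ 2) ≤ β ^ 2 * (n : ℝ) ^ 3 := h4.le.trans hup
    have h7 : 0 < β ^ 2 := by positivity
    have h8 : (K * (b : ℝ) ^ 8) ^ 3 * β ^ 2 ≤ (n : ℝ) ^ 3 * β ^ 2 := by
      calc (K * (b : ℝ) ^ 8) ^ 3 * β ^ 2 = (b : ℝ) ^ 24 * (K ^ 3 * β ^ 2) := by ring
        _ ≤ β ^ 2 * (n : ℝ) ^ 3 := h6
        _ = _ := by ring
    exact le_of_mul_le_mul_right h8 h7
  exact le_of_pow_le_pow_left₀ (by norm_num) (by positivity) h5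

theorem params {p : ℝ} (h0 : 0 < p) (h1 : p < 1) (k : ℕ) {η : ℝ} (hη : 0 < η) :
    ∀ᶠ n : ℕ in atTop, ∃ b m : ℕ, 0 < b ∧ 0 < m ∧ 2 * b * m + 2 * k ≤ n ∧
      (1 / p) ^ 2 * b / m ≤ 1 ∧
      ((1 / p) ^ 2 * b / m) ^ 2 * (1 / (1 - p)) ^ (b + 1) ≤ 1 ∧
      4 * (2 * b * ((1 / p) ^ 2 * b / m) +
        b ^ 2 * (((1 / p) ^ 2 * b / m) ^ 2 * (1 / (1 - p)))) +
        2 * (2 * n * (1 - p) ^ b) ≤ η := by
  have hq : 0 < 1 - p := by linarith
  set α : ℝ := (1 / p) ^ 2 with hα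
  set β : ℝ := 1 / (1 - p) with hβ
  have hα0 : 0 < α := by positivity
  have hβ1 : 1 < β := by
    rw [hβ, lt_div_iff₀ hq]
    linarith
  have hβ0 : 0 < β := by linarith
  set K : ℝ := 8 + 8 * α + 4096 * α ^ 4 * β ^ 4 + 256 * α / η + 1024 * α ^ 2 * β / η with hK
  have hK0 : 0 < K := by positivity
  have hK1 : 8 ≤ K := by
    have h2 : 0 ≤ 8 * α + 4096 * α ^ 4 * β ^ 4 + 256 * α / η + 1024 * α ^ 2 * β / η := by
      positivity
    linarith
  have hK2 : 8 * α ≤ K := by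
    have h2 : 0 ≤ 8 + 4096 * α ^ 4 * β ^ 4 + 256 * α / η + 1024 * α ^ 2 * β / η := by
      positivity
    linarith
  have hK3 : 4096 * α ^ 4 * β ^ 4 ≤ K := by
    have h2 : 0 ≤ 8 + 8 * α + 256 * α / η + 1024 * α ^ 2 * β / η := by
      positivity
    linarith
  have hK4 : 256 * α / η ≤ K := by
    have h2 : 0 ≤ 8 + 8 * α + 4096 * α ^ 4 * β ^ 4 + 1024 * α ^ 2 * β / η := by
      positivity
    linarith
  have hK5 : 1024 * α ^ 2 * β / η ≤ K := by
    have h2 : 0 ≤ 8 + 8 * α + 4096 * α ^ 4 * β ^ 4 + 256 * α / η := by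
      positivity
    linarith
  have hlim : ∀ᶠ n : ℕ in atTop, 256 / η ^ 2 ≤ (n : ℝ) :=
    (tendsto_natCast_atTop_atTop (R := ℝ)).eventually_ge_atTop _
  filter_upwards [exists_b hβ1 hK0, hlim, eventually_ge_atTop (4 * k + 1)]
    with n ⟨b, hb, hbl, hbu, hbK⟩ hn2 hn3
  have hn0 : 0 < n := by omega
  have hnR : (0 : ℝ) < n := by exact_mod_cast hn0
  have hn1R : (1 : ℝ) ≤ n := by exact_mod_cast hn0
  have hbR : (0 : ℝ) < b := by exact_mod_cast hb
  have hb1R : (1 : ℝ) ≤ b := by exact_mod_cast hb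
  have hpw : ∀ i : ℕ, i ≤ 8 → (b : ℝ) ^ i ≤ (b : ℝ) ^ 8 := fun i hi =>
    pow_le_pow_right₀ hb1R hi
  have h8b : 8 * (b : ℝ) ≤ n := by
    have := hpw 1 (by norm_num)
    rw [pow_one] at this
    nlinarith
  refine ⟨b, n / (4 * b), hb, ?_, ?_, ?_⟩
  · refine Nat.div_pos ?_ (by omega)
    have : 8 * b ≤ n := by exact_mod_cast h8b
    omega
  · have := Nat.div_mul_le_self n (4 * b)
    have e : n / (4 * b) * (4 * b) = 2 * (2 * b * (n / (4 * b))) := by ring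
    rw [e] at this
    omega
  set m := n / (4 * b) with hm
  have hmR : (n : ℝ) / (8 * b) ≤ m := by
    have h2 : n < (m + 1) * (4 * b) := by
      have := Nat.lt_div_mul_add (a := n) (b := 4 * b) (by omega)
      rw [← hm] at this
      calc n < m * (4 * b) + 4 * b := this
        _ = _ := by ring
    have h3 : (n : ℝ) < ((m : ℝ) + 1) * (4 * b) := by exact_mod_cast h2
    rw [div_le_iff₀ (by positivity)]
    nlinarith
  have hm0 : (0 : ℝ) < m := lt_of_lt_of_le (by positivity) hmR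
  have hκ : α * b / m ≤ 8 * α * b ^ 2 / n := by
    rw [div_le_div_iff₀ hm0 hnR]
    rw [div_le_iff₀ (by positivity)] at hmR
    have : α * b * (n : ℝ) ≤ α * b * (m * (8 * b)) := mul_le_mul_of_nonneg_left hmR (by positivity)
    calc α * b * (n : ℝ) ≤ α * b * (m * (8 * b)) := this
      _ = 8 * α * b ^ 2 * m := by ring
  have hκ0 : 0 ≤ α * b / m := by positivity
  set κ := α * b / m with hκdef
  -- bounds of b ^ i / n
  have hbn : ∀ i : ℕ, i ≤ 8 → (b : ℝ) ^ i / n ≤ 1 / K := by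
    intro i hi
    rw [div_le_div_iff₀ hnR hK0, one_mul]
    calc (b : ℝ) ^ i * K ≤ (b : ℝ) ^ 8 * K := mul_le_mul_of_nonneg_right (hpw i hi) hK0.le
      _ = K * (b : ℝ) ^ 8 := by ring
      _ ≤ n := hbK
  have hκ1 : κ ≤ 1 := by
    refine hκ.trans ?_
    have h2 := hbn 2 (by norm_num)
    calc 8 * α * b ^ 2 / n = 8 * α * ((b : ℝ) ^ 2 / n) := by ring
      _ ≤ 8 * α * (1 / K) := mul_le_mul_of_nonneg_left h2 (by positivity)
      _ = 8 * α / K := by ring
      _ ≤ 1 := by rwa [div_le_one hK0]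
  refine ⟨hκ1, ?_, ?_⟩
  · -- κ² β ^ (b + 1) ≤ 1
    have h2 : (κ ^ 2 * β ^ (b + 1)) ^ 2 ≤ 1 ^ 2 := by
      calc (κ ^ 2 * β ^ (b + 1)) ^ 2 = κ ^ 4 * (β ^ 2 * β ^ (2 * b)) := by ring
        _ ≤ (8 * α * b ^ 2 / n) ^ 4 * (β ^ 2 * (β ^ 2 * (n : ℝ) ^ 3)) := by
            refine mul_le_mul (pow_le_pow_left₀ hκ0 hκ 4) ?_ (by positivity) (by positivity)
            exact mul_le_mul_of_nonneg_left hbu (by positivity)
        _ = 4096 * α ^ 4 * β ^ 4 * ((b : ℝ) ^ 8 / n) := by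
            field_simp
            ring
        _ ≤ 4096 * α ^ 4 * β ^ 4 * (1 / K) :=
            mul_le_mul_of_nonneg_left (hbn 8 le_rfl) (by positivity)
        _ = 4096 * α ^ 4 * β ^ 4 / K := by ring
        _ ≤ 1 := by rwa [div_le_one hK0]
        _ = 1 ^ 2 := by norm_num
    exact le_of_pow_le_pow_left₀ two_ne_zero (by norm_num) h2
  · -- the error terms
    have t1 : 4 * (2 * b * κ) ≤ η / 4 := by
      calc 4 * (2 * b * κ) ≤ 4 * (2 * b * (8 * α * b ^ 2 / n)) := by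
            refine mul_le_mul_of_nonneg_left ?_ (by norm_num)
            exact mul_le_mul_of_nonneg_left hκ (by positivity)
        _ = 64 * α * ((b : ℝ) ^ 3 / n) := by ring
        _ ≤ 64 * α * (1 / K) := mul_le_mul_of_nonneg_left (hbn 3 (by norm_num)) (by positivity)
        _ = 64 * α / K := by ring
        _ ≤ η / 4 := by
            rw [div_le_iff₀ hK0]
            rw [div_le_iff₀ hη] at hK4
            linarith
    have t2 : 4 * (b ^ 2 * (κ ^ 2 * β)) ≤ η / 4 := by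
      have h2 : (b : ℝ) ^ 6 / (n : ℝ) ^ 2 ≤ 1 / K := by
        refine le_trans ?_ (hbn 6 (by norm_num))
        refine div_le_div_of_nonneg_left (by positivity) hnR ?_
        calc (n : ℝ) = n ^ 1 := (pow_one _).symm
          _ ≤ (n : ℝ) ^ 2 := pow_le_pow_right₀ hn1R (by norm_num)
      calc 4 * (b ^ 2 * (κ ^ 2 * β)) ≤ 4 * (b ^ 2 * ((8 * α * b ^ 2 / n) ^ 2 * β)) := by
            refine mul_le_mul_of_nonneg_left ?_ (by norm_num)
            refine mul_le_mul_of_nonneg_left ?_ (by positivity)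
            exact mul_le_mul_of_nonneg_right (pow_le_pow_left₀ hκ0 hκ 2) hβ0.le
        _ = 256 * α ^ 2 * β * ((b : ℝ) ^ 6 / (n : ℝ) ^ 2) := by
            field_simp
            ring
        _ ≤ 256 * α ^ 2 * β * (1 / K) := mul_le_mul_of_nonneg_left h2 (by positivity)
        _ = 256 * α ^ 2 * β / K := by ring
        _ ≤ η / 4 := by
            rw [div_le_iff₀ hK0]
            rw [div_le_iff₀ hη] at hK5
            linarith
    have t3 : 2 * (2 * n * (1 - p) ^ b) ≤ η / 4 := by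
      have hqβ : (1 - p) * β = 1 := by
        rw [hβ]
        field_simp
      have h2 : (2 * (2 * n * (1 - p) ^ b)) ^ 2 ≤ (η / 4) ^ 2 := by
        have h3 : (1 - p) ^ (2 * b) * β ^ (2 * b) = 1 := by
          rw [← mul_pow, hqβ, one_pow]
        have h4 : (1 - p) ^ (2 * b) * (n : ℝ) ^ 3 ≤ 1 := by
          calc (1 - p) ^ (2 * b) * (n : ℝ) ^ 3 ≤ (1 - p) ^ (2 * b) * β ^ (2 * b) :=
                mul_le_mul_of_nonneg_left hbl (by positivity)
            _ = 1 := h3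
        have h5 : (2 * (2 * n * (1 - p) ^ b)) ^ 2 * n ≤ 16 := by
          calc (2 * (2 * n * (1 - p) ^ b)) ^ 2 * n
              = 16 * ((1 - p) ^ (2 * b) * (n : ℝ) ^ 3) := by ring
            _ ≤ 16 * 1 := mul_le_mul_of_nonneg_left h4 (by norm_num)
            _ = 16 := by norm_num
        have h6 : 256 ≤ η ^ 2 * n := by
          rw [div_le_iff₀ (by positivity)] at hn2
          linarith
        have h7 : (2 * (2 * n * (1 - p) ^ b)) ^ 2 * n ≤ (η / 4) ^ 2 * n := by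
          calc _ ≤ (16 : ℝ) := h5
            _ ≤ (η / 4) ^ 2 * n := by
                have e : (η / 4) ^ 2 * n = (η ^ 2 * n) / 16 := by ring
                rw [e]
                linarith
        exact le_of_mul_le_mul_right h7 hnR
      exact le_of_pow_le_pow_left₀ two_ne_zero (by positivity) h2
    linarith

end ProfArtin.RG
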