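import Pool.Agent.Work.MP_f6e909_al.RG.One
import Pool.Agent.Work.MP_f6e909_al.RG.Num

/-!
# Almost all right-angled Artin groups are not profinitely rigid
-/

namespace ProfArtin.RG

open Finset Filter Topology

/-- all pairs `{2 i, 2 i + 1}`, `i < k`, are edges -/
theorem Pr_pairs {n : ℕ} (p : ℝ) (k : ℕ) (hk : 2 * k ≤ n) :
    Pr p (fun ω : Sym2 (Fin n) → Bool => ∀ i : Fin k,
      (gr ω).Adj (⟨2 * i, by omega⟩ : Fin n) ⟨2 * i + 1, by omega⟩) = p ^ k := by
  set D : Finset (Sym2 (Fin n)) := univ.image fun i : Fin k =>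
    s((⟨2 * i, by omega⟩ : Fin n), ⟨2 * i + 1, by omega⟩) with hD
  have hcard : D.card = k := by
    rw [hD, card_image_of_injective]
    · simp
    · intro i j h
      simp only [Sym2.eq_iff, Fin.mk.injEq] at h
      ext
      omega
  have e1 := Pr_cyl p D (fun _ => true)
  rw [prod_const, hcard] at e1
  have e2 : w1 p true = p := by simp [w1]
  rw [e2] at e1
  rw [← e1]
  congr 1
  ext ω
  constructor
  · intro h e he
    rw [hD, mem_image] at he
    obtain ⟨i, -, rfl⟩ := he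
    exact ((gr_adj ω _ _).1 (h i)).1
  · intro h i
    rw [gr_adj]
    refine ⟨h _ (mem_image_of_mem _ (mem_univ i)), ?_⟩
    rw [ne_eq, Fin.mk.injEq]
    omega

theorem main_bound {p : ℝ} (h0 : 0 < p) (h1 : p < 1) {n k b m : ℕ} (hk : 0 < k) (hb : 0 < b)
    (hm : 0 < m) (hn : 2 * b * m + 2 * k ≤ n) (hk1 : (1 / p) ^ 2 * b / m ≤ 1)
    (hk2 : ((1 / p) ^ 2 * b / m) ^ 2 * (1 / (1 - p)) ^ (b + 1) ≤ 1) :
    Pr p (fun ω : Sym2 (Fin n) → Bool => ProfinitelyRigid (ArtinGroup (raag (gr ω)))) ≤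
      p ^ k + k * (4 * (2 * b * ((1 / p) ^ 2 * b / m) +
        b ^ 2 * (((1 / p) ^ 2 * b / m) ^ 2 * (1 / (1 - p)))) + 2 * (2 * n * (1 - p) ^ b)) := by
  set err := 4 * (2 * b * ((1 / p) ^ 2 * b / m) +
        b ^ 2 * (((1 / p) ^ 2 * b / m) ^ 2 * (1 / (1 - p)))) + 2 * (2 * n * (1 - p) ^ b) with herr
  have hkn : 2 * k ≤ n := by omega
  refine (Pr_mono h0.le h1.le (B := fun ω => (∀ i : Fin k,
      (gr ω).Adj (⟨2 * i, by omega⟩ : Fin n) ⟨2 * i + 1, by omega⟩) ∨
      ∃ i ∈ (univ : Finset (Fin k)),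
        ¬ (gr ω).Adj (⟨2 * i, by omega⟩ : Fin n) ⟨2 * i + 1, by omega⟩ ∧
        ProfinitelyRigid (ArtinGroup (raag (gr ω)))) ?_).trans ?_
  · intro ω h
    by_cases h2 : ∀ i : Fin k, (gr ω).Adj (⟨2 * i, by omega⟩ : Fin n) ⟨2 * i + 1, by omega⟩
    · exact Or.inl h2
    · push Not at h2
      obtain ⟨i, hi⟩ := h2
      exact Or.inr ⟨i, mem_univ i, hi, h⟩
  · refine (Pr_or_le h0.le h1.le _ _).trans (add_le_add (Pr_pairs p k hkn).le ?_)
    refine (Pr_exists_le h0.le h1.le _ _).trans ?_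
    have e1 : ∀ i : Fin k, Pr p (fun ω : Sym2 (Fin n) → Bool =>
        ¬ (gr ω).Adj (⟨2 * i, by omega⟩ : Fin n) ⟨2 * i + 1, by omega⟩ ∧
        ProfinitelyRigid (ArtinGroup (raag (gr ω)))) ≤ err := by
      intro i
      have hne : (⟨2 * i, by omega⟩ : Fin n) ≠ ⟨2 * i + 1, by omega⟩ := by
        rw [ne_eq, Fin.mk.injEq]
        omega
      obtain ⟨B, hB0, hB1⟩ := exists_boxes (b := b) (m := m) hne (by omega)
      have := B.bound h0 h1 hb hm hk1 hk2
      rw [hB0, hB1] at this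
      exact this
    refine (sum_le_sum fun i _ => e1 i).trans (le_of_eq ?_)
    rw [sum_const, Finset.card_univ, Fintype.card_fin, nsmul_eq_mul]

open Classical in
theorem main_limit {p : ℝ} (h0 : 0 < p) (h1 : p < 1) :
    Tendsto (fun n : ℕ => ∑ G : SimpleGraph (Fin n),
      if ProfinitelyRigid (ArtinGroup (raag G)) then erWeight p G else 0) atTop (𝓝 0) := by
  have e : ∀ n : ℕ, (∑ G : SimpleGraph (Fin n),
      if ProfinitelyRigid (ArtinGroup (raag G)) then erWeight p G else 0) =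
      Pr p (fun ω : Sym2 (Fin n) → Bool => ProfinitelyRigid (ArtinGroup (raag (gr ω)))) :=
    fun n => (Pr_gr p (fun G => ProfinitelyRigid (ArtinGroup (raag G)))).symm
  simp only [e]
  rw [Metric.tendsto_atTop']
  intro η hη
  obtain ⟨k, hk⟩ := exists_pow_lt_of_lt_one (half_pos hη) h1
  have hk' : p ^ (k + 1) < η / 2 :=
    lt_of_le_of_lt (pow_le_pow_of_le_one h0.le h1.le (Nat.le_succ k)) hk
  have hη' : 0 < η / 2 / ((k + 1 : ℕ) : ℝ) := by positivity
  obtain ⟨n₀, hn₀⟩ := eventually_atTop.1 (params h0 h1 (k + 1) hη')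
  refine ⟨n₀, fun n hn => ?_⟩
  obtain ⟨b, m, hb, hm, hnb, hk1, hk2, herr⟩ := hn₀ n hn.le
  have h2 := main_bound h0 h1 (Nat.succ_pos k) hb hm hnb hk1 hk2
  have h3 : ((k + 1 : ℕ) : ℝ) * (4 * (2 * b * ((1 / p) ^ 2 * b / m) +
        b ^ 2 * (((1 / p) ^ 2 * b / m) ^ 2 * (1 / (1 - p)))) + 2 * (2 * n * (1 - p) ^ b)) ≤
      η / 2 := by
    have hkpos : (0 : ℝ) < ((k + 1 : ℕ) : ℝ) := by positivity
    calc _ ≤ ((k + 1 : ℕ) : ℝ) * (η / 2 / ((k + 1 : ℕ) : ℝ)) :=
          mul_le_mul_of_nonneg_left herr hkpos.le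
      _ = η / 2 := by field_simp
  rw [Real.dist_eq, sub_zero, abs_of_nonneg (Pr_nonneg h0.le h1.le _)]
  simp only [Nat.succ_eq_add_one] at h2
  linarith

theorem erWeight_half {n : ℕ} (G : SimpleGraph (Fin n)) :
    erWeight (1 / 2) G = (1 / 2) ^ (n.choose 2) := by
  classical
  have h1 : G.edgeSet.ncard ≤ n.choose 2 := by
    rw [Set.ncard_eq_toFinset_card']
    have := G.card_edgeFinset_le_card_choose_two
    rw [Fintype.card_fin] at this
    exact this
  rw [erWeight]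
  norm_num
  rw [← pow_add]
  congr 1
  omega

open Classical in
theorem card_graphs (n : ℕ) :
    (Fintype.card (SimpleGraph (Fin n)) : ℝ) * (1 / 2) ^ (n.choose 2) = 1 := by
  have h1 := Pr_gr (n := n) (1 / 2) (fun _ => True)
  simp only [if_true, erWeight_half] at h1
  rw [Pr_true, sum_const, Finset.card_univ, nsmul_eq_mul] at h1
  exact h1.symm

theorem main_prop :
    Tendsto (fun n : ℕ => (Nat.card {G : SimpleGraph (Fin n) //
      ProfinitelyRigid (ArtinGroup (raag G))} : ℝ) / Nat.card (SimpleGraph (Fin n)))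
      atTop (𝓝 0) := by
  classical
  refine (main_limit (p := 1 / 2) (by norm_num) (by norm_num)).congr fun n => ?_
  have h1 := card_graphs n
  simp only [erWeight_half]
  rw [← sum_filter, sum_const, nsmul_eq_mul, Nat.card_eq_fintype_card, Nat.card_eq_fintype_card,
    Fintype.card_subtype]
  have h2 : (Fintype.card (SimpleGraph (Fin n)) : ℝ) ≠ 0 := by
    intro h
    rw [h, zero_mul] at h1
    exact zero_ne_one h1
  rw [eq_div_iff h2, mul_assoc, mul_comm ((1 / 2 : ℝ) ^ _), h1, mul_one]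

end ProfArtin.RG
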