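import Pool.Agent.Work.MP_f6e909_al.RG.Graph
import Pool.Agent.Work.MP_f6e909_al.GQ.Final

/-!
# One pair of vertices: if it is not an edge, then the group is not rigid with high probability
-/

namespace ProfArtin.RG

open Finset

variable {n b m : ℕ}

/-- two vertices and `2 b` disjoint boxes of `m` other vertices -/
structure Boxes (n b m : ℕ) where
  x : Fin 2 → Fin n
  u : Fin 2 × Fin b × Fin m → Fin n
  hx : x 0 ≠ x 1
  hu : Function.Injective u
  hxu : ∀ j r, x j ≠ u r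

theorem Boxes.x_inj (B : Boxes n b m) {j j' : Fin 2} (h : B.x j = B.x j') : j = j' := by
  have h2 := B.hx
  fin_cases j <;> fin_cases j'
  · rfl
  · exact absurd h h2
  · exact absurd h.symm h2
  · rfl

/-- the coordinates used for the boxes -/
def Boxes.edges (B : Boxes n b m) : EdgeData (Sym2 (Fin n)) b m where
  φ := fun r => s(B.x r.1, B.u r.2)
  ψ := fun r => s(B.u (0, r.1), B.u (1, r.2))
  v := fun e => decide (B.x 0 ∈ e ∨ B.x 1 ∈ e)
  hφ := by
    rintro ⟨j, r⟩ ⟨j', r'⟩ h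
    simp only [Sym2.eq_iff] at h
    rcases h with ⟨h1, h2⟩ | ⟨h1, -⟩
    · rw [B.x_inj h1, B.hu h2]
    · exact absurd h1 (B.hxu j r')
  hψ := by
    rintro ⟨r1, r2⟩ ⟨r1', r2'⟩ h
    simp only [Sym2.eq_iff] at h
    rcases h with ⟨h1, h2⟩ | ⟨h1, -⟩
    · have e1 := B.hu h1
      have e2 := B.hu h2
      simp only [Prod.mk.injEq, true_and] at e1 e2
      rw [e1, e2]
    · have e1 := B.hu h1
      simp only [Prod.mk.injEq] at e1
      exact absurd e1.1 (by decide)
  vφ := by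
    rintro ⟨j, r⟩
    rw [decide_eq_true_iff]
    fin_cases j
    · exact Or.inl (Sym2.mem_mk_left _ _)
    · exact Or.inr (Sym2.mem_mk_left _ _)
  vψ := by
    rintro ⟨r1, r2⟩
    rw [decide_eq_false_iff_not]
    simp only [Sym2.mem_iff, not_or]
    exact ⟨⟨B.hxu _ _, B.hxu _ _⟩, B.hxu _ _, B.hxu _ _⟩

/-- the vertices of a selection -/
def Boxes.y (B : Boxes n b m) (s : Sel b m) (i : Fin 2) (a : Fin b) : Fin n :=
  B.u (i, a, sfn s i a)

theorem Boxes.y_inj (B : Boxes n b m) {s : Sel b m} {i i' : Fin 2} {a a' : Fin b}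
    (h : B.y s i a = B.y s i' a') : i = i' ∧ a = a' := by
  have := B.hu h
  simp only [Prod.mk.injEq] at this
  exact ⟨this.1, this.2.1⟩

/-- the bad event: some other vertex misses one of the two blocks -/
def Boxes.bad (B : Boxes n b m) (s : Sel b m) (ω : Sym2 (Fin n) → Bool) : Prop :=
  ∃ r : Fin n × Fin 2, (∀ j, r.1 ≠ B.x j) ∧ (∀ i a, r.1 ≠ B.y s i a) ∧
    ∀ a, ω s(r.1, B.y s r.2 a) = false

theorem Boxes.mem_D (B : Boxes n b m) {s : Sel b m} {e : Sym2 (Fin n)}
    (he : e ∈ D1 B.edges.φ s ∪ D2 B.edges.ψ s) :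
    (∃ j i a, e = s(B.x j, B.y s i a)) ∨ ∃ a a', e = s(B.y s 0 a, B.y s 1 a') := by
  rcases mem_union.1 he with he | he
  · rw [D1, mem_image] at he
    obtain ⟨⟨j, i, a⟩, -, rfl⟩ := he
    exact Or.inl ⟨j, i, a, rfl⟩
  · rw [D2, mem_image] at he
    obtain ⟨⟨a, a'⟩, -, rfl⟩ := he
    exact Or.inr ⟨a, a', rfl⟩

theorem Boxes.D1_mem (B : Boxes n b m) (s : Sel b m) (j i : Fin 2) (a : Fin b) :
    s(B.x j, B.y s i a) ∈ D1 B.edges.φ s := by
  rw [D1, mem_image]
  exact ⟨(j, i, a), mem_univ _, rfl⟩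

theorem Boxes.D2_mem (B : Boxes n b m) (s : Sel b m) (a a' : Fin b) :
    s(B.y s 0 a, B.y s 1 a') ∈ D2 B.edges.ψ s := by
  rw [D2, mem_image]
  exact ⟨(a, a'), mem_univ _, rfl⟩

theorem Boxes.good (B : Boxes n b m) (hb : 0 < b) (s : Sel b m) (ω : Sym2 (Fin n) → Bool)
    (hx : ¬ (gr ω).Adj (B.x 0) (B.x 1)) (hA : B.edges.A s ω) (hB : ¬ B.bad s ω) :
    ¬ ProfinitelyRigid (ArtinGroup (raag (gr ω))) := by
  classical
  set G := gr ω with hG
  have hadj : ∀ j i a, G.Adj (B.x j) (B.y s i a) := by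
    intro j i a
    rw [hG, gr_adj]
    refine ⟨?_, B.hxu _ _⟩
    rw [hA _ (mem_union_left _ (B.D1_mem s j i a))]
    exact B.edges.v1 s _ (B.D1_mem s j i a)
  have hnadj : ∀ a a', ¬ G.Adj (B.y s 0 a) (B.y s 1 a') := by
    intro a a' h
    rw [hG, gr_adj] at h
    have h2 := hA _ (mem_union_right _ (B.D2_mem s a a'))
    rw [B.edges.v2 s _ (B.D2_mem s a a'), h.1] at h2
    exact absurd h2 (by decide)
  have hyne : ∀ a a', B.y s 0 a ≠ B.y s 1 a' := fun a a' h => by
    have := (B.y_inj h).1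
    exact absurd this (by decide)
  let a₀ : Fin b := ⟨0, hb⟩
  refine gq_main (raag G) (Set.range B.x) {z | ∃ i a, z = B.y s i a}
    (fun z => if z = B.x 0 then 0 else 1) (fun z => if ∃ a, z = B.y s 0 a then 0 else 1)
    ⟨?_, ?_, ?_, ?_, ?_, ?_, ?_⟩
  · intro i
    refine ⟨B.x i, ⟨i, rfl⟩, ?_⟩
    fin_cases i
    · simp
    · have h := B.hx
      simp [h.symm]
  · intro i
    refine ⟨B.y s i a₀, ⟨i, a₀, rfl⟩, ?_⟩
    fin_cases i
    · exact if_pos ⟨a₀, rfl⟩
    · exact if_neg fun ⟨a, ha⟩ => hyne a a₀ ha.symm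
  · rintro _ ⟨j, rfl⟩ _ ⟨j', rfl⟩ h
    have hne : B.x j ≠ B.x j' := fun h2 => h (by rw [h2])
    refine raag_of_not_adj G hne fun h2 => ?_
    have hj : j ≠ j' := fun h3 => hne (by rw [h3])
    fin_cases j <;> fin_cases j'
    · exact hj rfl
    · exact hx h2
    · exact hx h2.symm
    · exact hj rfl
  · rintro _ ⟨i, a, rfl⟩ _ ⟨i', a', rfl⟩ h
    have hne : B.y s i a ≠ B.y s i' a' := fun h2 => h (by rw [h2])
    refine raag_of_not_adj G hne fun h2 => ?_
    have hval : ∀ (i : Fin 2) (a : Fin b),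
        (if ∃ c, B.y s i a = B.y s 0 c then (0 : Fin 2) else 1) = i := by
      intro i a
      fin_cases i
      · exact if_pos ⟨a, rfl⟩
      · exact if_neg fun ⟨c, hc⟩ => hyne c a hc.symm
    have hi : i ≠ i' := fun h3 => h (by rw [hval, hval, h3])
    fin_cases i <;> fin_cases i'
    · exact hi rfl
    · exact hnadj a a' h2
    · exact hnadj a' a h2.symm
    · exact hi rfl
  · rintro _ ⟨j, rfl⟩ _ ⟨i, a, rfl⟩
    exact raag_of_adj G (hadj j i a)
  · intro w hwX hwY z hz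
    have hne : w ≠ z := by
      rintro rfl
      rcases hz with hz | hz
      · exact hwX hz
      · exact hwY hz
    by_cases h : G.Adj w z
    · rw [raag_of_adj G h]
      decide
    · rw [raag_of_not_adj G hne h]
      decide
  · intro w hwX hwY
    right
    right
    intro i
    have h1 : ¬ ∀ a, ω s(w, B.y s i a) = false := by
      intro h
      exact hB ⟨(w, i), fun j hj => hwX ⟨j, hj.symm⟩, fun i a hia => hwY ⟨i, a, hia⟩, h⟩
    push Not at h1
    obtain ⟨a, ha⟩ := h1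
    refine ⟨B.y s i a, ⟨i, a, rfl⟩, ?_, ?_⟩
    · fin_cases i
      · exact if_pos ⟨a, rfl⟩
      · exact if_neg fun ⟨c, hc⟩ => hyne c a hc.symm
    · have hne : w ≠ B.y s i a := fun h => hwY ⟨i, a, h⟩
      refine raag_of_adj G ?_
      rw [hG, gr_adj]
      refine ⟨?_, hne⟩
      rwa [ne_eq, Bool.not_eq_false] at ha

theorem Boxes.Pr_bad (B : Boxes n b m) {p : ℝ} (h0 : 0 < p) (h1 : p < 1) (s : Sel b m) :
    Pr p (fun ω => B.edges.A s ω ∧ B.bad s ω) ≤
      2 * n * (1 - p) ^ b * (p ^ (4 * b) * (1 - p) ^ (b * b)) := by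
  have hq : 0 < 1 - p := by linarith
  have e1 : Pr p (fun ω => B.edges.A s ω ∧ B.bad s ω) ≤
      Pr p (fun ω => ∃ r ∈ (univ : Finset (Fin n × Fin 2)), B.edges.A s ω ∧
        (∀ j, r.1 ≠ B.x j) ∧ (∀ i a, r.1 ≠ B.y s i a) ∧
          ∀ a, ω s(r.1, B.y s r.2 a) = false) := by
    refine Pr_mono h0.le h1.le fun ω h => ?_
    obtain ⟨h2, r, h3⟩ := h
    exact ⟨r, mem_univ _, h2, h3⟩
  refine e1.trans ((Pr_exists_le h0.le h1.le _ _).trans ?_)
  have e2 : ∀ r : Fin n × Fin 2, Pr p (fun ω => B.edges.A s ω ∧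
        (∀ j, r.1 ≠ B.x j) ∧ (∀ i a, r.1 ≠ B.y s i a) ∧
          ∀ a, ω s(r.1, B.y s r.2 a) = false) ≤
      (1 - p) ^ b * (p ^ (4 * b) * (1 - p) ^ (b * b)) := by
    intro r
    by_cases hr : (∀ j, r.1 ≠ B.x j) ∧ (∀ i a, r.1 ≠ B.y s i a)
    · set N : Finset (Sym2 (Fin n)) := univ.image fun a => s(r.1, B.y s r.2 a) with hN
      have hcard : N.card = b := by
        rw [hN, card_image_of_injective]
        · simp
        · intro a a' h
          simp only [Sym2.eq_iff] at h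
          rcases h with ⟨-, h⟩ | ⟨h, -⟩
          · exact (B.y_inj h).2
          · exact absurd h (hr.2 _ _)
      have h3 := B.edges.PrAN p s N ?_ ?_
      · refine le_of_eq ?_
        rw [hcard] at h3
        rw [mul_comm ((1 - p) ^ b), ← h3]
        congr 1
        ext ω
        constructor
        · rintro ⟨h4, -, -, h5⟩
          refine ⟨h4, fun e he => ?_⟩
          rw [hN, mem_image] at he
          obtain ⟨a, -, rfl⟩ := he
          exact h5 a
        · rintro ⟨h4, h5⟩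
          exact ⟨h4, hr.1, hr.2, fun a => h5 _ (mem_image_of_mem _ (mem_univ a))⟩
      · rw [Finset.disjoint_left]
        intro e he he'
        rw [hN, mem_image] at he'
        obtain ⟨a, -, rfl⟩ := he'
        have hmem : r.1 ∈ s(r.1, B.y s r.2 a) := Sym2.mem_mk_left _ _
        rcases B.mem_D he with ⟨j, i, c, h4⟩ | ⟨c, c', h4⟩
        · rw [h4, Sym2.mem_iff] at hmem
          rcases hmem with h5 | h5
          · exact hr.1 _ h5
          · exact hr.2 _ _ h5
        · rw [h4, Sym2.mem_iff] at hmem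
          rcases hmem with h5 | h5
          · exact hr.2 _ _ h5
          · exact hr.2 _ _ h5
      · intro e he
        rw [hN, mem_image] at he
        obtain ⟨a, -, rfl⟩ := he
        change decide _ = false
        rw [decide_eq_false_iff_not]
        simp only [Sym2.mem_iff, not_or]
        exact ⟨⟨(hr.1 0).symm, B.hxu _ _⟩, (hr.1 1).symm, B.hxu _ _⟩
    · have : Pr p (fun ω => B.edges.A s ω ∧
        (∀ j, r.1 ≠ B.x j) ∧ (∀ i a, r.1 ≠ B.y s i a) ∧
          ∀ a, ω s(r.1, B.y s r.2 a) = false) = 0 := by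
        unfold Pr
        refine sum_eq_zero fun ω _ => if_neg ?_
        rintro ⟨-, h4, h5, -⟩
        exact hr ⟨h4, h5⟩
      rw [this]
      positivity
  refine (sum_le_sum fun r _ => e2 r).trans (le_of_eq ?_)
  rw [sum_const, Finset.card_univ, Fintype.card_prod, Fintype.card_fin, Fintype.card_fin,
    nsmul_eq_mul]
  push_cast
  ring

theorem Boxes.bound (B : Boxes n b m) {p : ℝ} (h0 : 0 < p) (h1 : p < 1) (hb : 0 < b)
    (hm : 0 < m) (hk1 : (1 / p) ^ 2 * b / m ≤ 1)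
    (hk2 : ((1 / p) ^ 2 * b / m) ^ 2 * (1 / (1 - p)) ^ (b + 1) ≤ 1) :
    Pr p (fun ω : Sym2 (Fin n) → Bool => ¬ (gr ω).Adj (B.x 0) (B.x 1) ∧
      ProfinitelyRigid (ArtinGroup (raag (gr ω)))) ≤
      4 * (2 * b * ((1 / p) ^ 2 * b / m) +
        b ^ 2 * (((1 / p) ^ 2 * b / m) ^ 2 * (1 / (1 - p)))) + 2 * (2 * n * (1 - p) ^ b) := by
  have hq : 0 < 1 - p := by linarith
  refine (Pr_mono h0.le h1.le (B := fun ω => ∀ s, B.edges.A s ω → B.bad s ω) ?_).trans ?_
  · rintro ω ⟨h2, h3⟩ s hA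
    by_contra hB
    exact B.good hb s ω h2 hA hB h3
  · refine second_moment h0.le h1.le B.edges.A B.bad (p ^ (4 * b) * (1 - p) ^ (b * b)) _ _ ?_
      (by positivity) (fun s => B.edges.PrA p s) (B.edges.sumAA h0 h1 hm hk1 hk2) ?_
    · have : Nonempty (Fin m) := ⟨⟨0, hm⟩⟩
      exact Fintype.card_pos
    · exact fun s => B.Pr_bad h0 h1 s

/-- existence of boxes -/
theorem exists_boxes {x₁ x₂ : Fin n} (h : x₁ ≠ x₂) (hn : 2 * b * m + 2 ≤ n) :
    ∃ B : Boxes n b m, B.x 0 = x₁ ∧ B.x 1 = x₂ := by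
  have hcard : Fintype.card (Fin 2 × Fin b × Fin m) ≤
      Fintype.card {z : Fin n // z ∉ ({x₁, x₂} : Finset (Fin n))} := by
    rw [Fintype.card_subtype_compl]
    simp only [Fintype.card_prod, Fintype.card_fin, Fintype.card_coe]
    rw [card_pair h]
    have : 2 * (b * m) = 2 * b * m := by ring
    omega
  obtain ⟨f⟩ := Function.Embedding.nonempty_of_card_le hcard
  refine ⟨⟨fun j => if j = 0 then x₁ else x₂, fun r => (f r).1, ?_, ?_, ?_⟩, ?_, ?_⟩
  · simpa using h
  · exact fun r r' hr => f.injective (Subtype.ext hr)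
  · intro j r hr
    apply (f r).2
    rw [← hr]
    split_ifs
    · exact mem_insert_self _ _
    · exact mem_insert_of_mem (mem_singleton_self _)
  · simp
  · simp

end ProfArtin.RG
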